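import Pool.Agent.Lib.H97P.Parity

/-!
# H97P: the bound is attained for `q ≡ 3 (mod 4)` (the families of Mullin and Nemeth)
-/

set_option autoImplicit false

namespace Pool.Agent.Lib.H97P

open Finset

section abs

variable {F : Type*} [Field F]

open Classical in
/-- `d` if `d` is a square, `- d` otherwise. -/
noncomputable def ab (d : F) : F := if IsSquare d then d else - d

theorem ab_cases (d : F) : (IsSquare d ∧ ab d = d) ∨ (¬ IsSquare d ∧ ab d = - d) := by
  unfold ab
  by_cases h : IsSquare d
  · left; exact ⟨h, if_pos h⟩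
  · right; exact ⟨h, if_neg h⟩

theorem ab_sq (d : F) : ab d ^ 2 = d ^ 2 := by
  rcases ab_cases d with h | h
  · rw [h.2]
  · rw [h.2]; ring

variable [Fintype F]

theorem neg_one_nonsq (hq : Fintype.card F % 4 = 3) : ¬ IsSquare (-1 : F) := by
  rw [FiniteField.isSquare_neg_one_iff]
  exact fun h => h hq

theorem two_ne (hq : Fintype.card F % 4 = 3) : (2 : F) ≠ 0 := by
  intro h
  apply neg_one_nonsq hq
  refine ⟨1, ?_⟩
  linear_combination -h

theorem isSquare_or (hq : Fintype.card F % 4 = 3) (d : F) : IsSquare d ∨ IsSquare (-d) := by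
  classical
  have h1 := neg_one_nonsq hq
  by_contra hc
  push Not at hc
  have e1 := (quadraticChar_neg_one_iff_not_isSquare (F := F) (a := d)).2 hc.1
  have e2 := (quadraticChar_neg_one_iff_not_isSquare (F := F) (a := -d)).2 hc.2
  have e3 := (quadraticChar_neg_one_iff_not_isSquare (F := F) (a := -1)).2 h1
  have e4 : quadraticChar F (-d) = quadraticChar F (-1) * quadraticChar F d := by
    rw [← map_mul]; congr 1; ring
  rw [e1, e2, e3] at e4
  norm_num at e4

theorem not_both (hq : Fintype.card F % 4 = 3) {d : F} (hd : d ≠ 0) (h1 : IsSquare d)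
    (h2 : IsSquare (-d)) : False := by
  obtain ⟨a, ha⟩ := h1
  obtain ⟨b, hb⟩ := h2
  apply neg_one_nonsq hq
  have ha0 : a ≠ 0 := by
    intro h; apply hd; rw [ha, h]; ring
  refine ⟨b / a, ?_⟩
  field_simp
  linear_combination ha + hb

theorem ab_isSquare (hq : Fintype.card F % 4 = 3) (d : F) : IsSquare (ab d) := by
  rcases ab_cases d with h | h
  · rw [h.2]; exact h.1
  · rw [h.2]
    exact (isSquare_or hq d).resolve_left h.1

theorem ab_neg (hq : Fintype.card F % 4 = 3) (d : F) : ab (-d) = ab d := by
  by_cases hd : d = 0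
  · rw [hd, neg_zero]
  rcases ab_cases d with h | h <;> rcases ab_cases (-d) with h' | h'
  · exact (not_both hq hd h.1 h'.1).elim
  · rw [h.2, h'.2, neg_neg]
  · rw [h.2, h'.2]
  · exact (((isSquare_or hq d).resolve_left h.1 |> h'.1)).elim

theorem ab_zero : ab (0 : F) = 0 := by
  rcases ab_cases (0 : F) with h | h
  · exact h.2
  · rw [h.2, neg_zero]

theorem ab_one : ab (1 : F) = 1 := by
  rcases ab_cases (1 : F) with h | h
  · exact h.2
  · exact (h.1 ⟨1, by ring⟩).elim

/-- The squares `(x + y) / 2 + l |x - y|`. -/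
noncomputable def sq (l x y : F) : F := (x + y) / 2 + l * ab (x - y)

theorem sq_inj (hq : Fintype.card F % 4 = 3) {l : F} (hl : ¬ IsSquare (l ^ 2 - 1 / 4)) (x : F) :
    Function.Injective (sq l x) := by
  have h2 := two_ne hq
  have h4 : (4 : F) ≠ 0 := by
    have : (4 : F) = 2 * 2 := by norm_num
    rw [this]; exact mul_ne_zero h2 h2
  have hfac : l ^ 2 - 1 / 4 = (l - 1 / 2) * (l + 1 / 2) := by
    field_simp
    ring
  have hne : l ^ 2 - 1 / 4 ≠ 0 := fun h => hl (by rw [h]; exact ⟨0, by ring⟩)
  have hm : l - 1 / 2 ≠ 0 := fun h => hne (by rw [hfac, h, zero_mul])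
  have hp : l + 1 / 2 ≠ 0 := fun h => hne (by rw [hfac, h, mul_zero])
  -- the mixed case
  have mixed : ∀ s t : F, IsSquare s → IsSquare (-t) → s * (l - 1 / 2) = (-t) * (l + 1 / 2) →
      s = t := by
    intro s t hs ht h
    by_cases hs0 : s = 0
    · rw [hs0, zero_mul] at h
      have := (mul_eq_zero.1 h.symm).resolve_right hp
      rw [hs0]
      exact (neg_eq_zero.1 this).symm
    · exfalso
      apply hl
      obtain ⟨a, ha⟩ := hs
      obtain ⟨b, hb⟩ := ht
      have ha0 : a ≠ 0 := by
        intro h; apply hs0; rw [ha, h]; ring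
      refine ⟨b * (l + 1 / 2) / a, ?_⟩
      rw [hfac]
      have e1 : (l - 1 / 2) = (b * b) * (l + 1 / 2) / (a * a) := by
        rw [eq_div_iff (mul_ne_zero ha0 ha0), ← ha, ← hb, ← h]
        ring
      rw [e1]
      field_simp
  intro y z h
  unfold sq at h
  have hst : x - y = x - z := by
    set s := x - y with hs
    set t := x - z with ht
    have e : - s / 2 + l * ab s = - t / 2 + l * ab t := by
      have e1 : (x + y) / 2 = x - s / 2 := by rw [hs]; field_simp; ring
      have e2 : (x + z) / 2 = x - t / 2 := by rw [ht]; field_simp; ring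
      rw [e1, e2] at h
      linear_combination h
    rcases ab_cases s with h1 | h1 <;> rcases ab_cases t with h3 | h3
    · rw [h1.2, h3.2] at e
      have : (s - t) * (l - 1 / 2) = 0 := by linear_combination e
      exact sub_eq_zero.1 ((mul_eq_zero.1 this).resolve_right hm)
    · rw [h1.2, h3.2] at e
      refine mixed s t h1.1 ((isSquare_or hq t).resolve_left h3.1) ?_
      linear_combination e
    · rw [h1.2, h3.2] at e
      refine (mixed t s h3.1 ((isSquare_or hq s).resolve_left h1.1) ?_).symm
      linear_combination -e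
    · rw [h1.2, h3.2] at e
      have : (s - t) * (l + 1 / 2) = 0 := by linear_combination -e
      exact sub_eq_zero.1 ((mul_eq_zero.1 this).resolve_right hp)
  exact sub_right_injective hst

theorem sq_symm (hq : Fintype.card F % 4 = 3) (l x y : F) : sq l x y = sq l y x := by
  unfold sq
  rw [← ab_neg hq (x - y), neg_sub, add_comm x y]

theorem sq_diag (hq : Fintype.card F % 4 = 3) (l x : F) : sq l x x = x := by
  have h2 := two_ne hq
  unfold sq
  rw [sub_self, ab_zero, mul_zero, add_zero]
  field_simp
  ring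

theorem sq_orth (hq : Fintype.card F % 4 = 3) {l m : F} (hlm : l ≠ m) {x y z w : F}
    (h1 : sq l x y = sq l z w) (h2 : sq m x y = sq m z w) :
    (x = z ∧ y = w) ∨ (x = w ∧ y = z) := by
  have h20 := two_ne hq
  unfold sq at h1 h2
  have e1 : (l - m) * (ab (x - y) - ab (z - w)) = 0 := by linear_combination h1 - h2
  have e2 : ab (x - y) = ab (z - w) :=
    sub_eq_zero.1 ((mul_eq_zero.1 e1).resolve_left (sub_ne_zero.2 hlm))
  have e3 : x + y = z + w := by
    rw [e2] at h1
    have := add_right_cancel h1
    field_simp at this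
    exact this
  have e4 : (x - y) ^ 2 = (z - w) ^ 2 := by
    rw [← ab_sq, ← ab_sq (z - w), e2]
  have e5 : (x - y - (z - w)) * (x - y + (z - w)) = 0 := by linear_combination e4
  rcases mul_eq_zero.1 e5 with h | h
  · left
    have : 2 * (x - z) = 0 := by linear_combination h + e3
    have hx : x = z := sub_eq_zero.1 ((mul_eq_zero.1 this).resolve_left h20)
    exact ⟨hx, by rw [hx] at e3; exact add_left_cancel e3⟩
  · right
    have : 2 * (x - w) = 0 := by linear_combination h + e3
    have hx : x = w := sub_eq_zero.1 ((mul_eq_zero.1 this).resolve_left h20)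
    exact ⟨hx, by rw [hx] at e3; linear_combination e3⟩

open Classical in
/-- The nonsquares. -/
noncomputable def nonsq (F : Type*) [Field F] [Fintype F] : Finset F :=
  Finset.univ.filter fun c => ¬ IsSquare c

theorem mem_nonsq {c : F} : c ∈ nonsq F ↔ ¬ IsSquare c := by
  unfold nonsq
  simp

theorem card_nonsq (hq : Fintype.card F % 4 = 3) : 2 * (nonsq F).card = Fintype.card F - 1 := by
  classical
  have h1 : (nonsq F).card = (Finset.univ.filter fun c : F => IsSquare c ∧ c ≠ 0).card := by
    refine Finset.card_bij (fun c _ => -c) (fun c hc => ?_) (fun a _ b _ h => neg_injective h)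
      (fun c hc => ?_)
    · rw [mem_nonsq] at hc
      rw [Finset.mem_filter]
      refine ⟨Finset.mem_univ _, (isSquare_or hq c).resolve_left hc, ?_⟩
      intro h
      apply hc
      rw [neg_eq_zero] at h
      rw [h]
      exact ⟨0, by ring⟩
    · rw [Finset.mem_filter] at hc
      refine ⟨-c, ?_, neg_neg c⟩
      rw [mem_nonsq]
      exact fun h => not_both hq hc.2.2 hc.2.1 h
  set T : Finset F := Finset.univ.filter fun c : F => IsSquare c ∧ c ≠ 0 with hT
  have hmT : ∀ c, c ∈ T ↔ (IsSquare c ∧ c ≠ 0) := by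
    intro c
    rw [hT, Finset.mem_filter]
    exact ⟨fun h => h.2, fun h => ⟨Finset.mem_univ _, h⟩⟩
  have d1 : Disjoint (nonsq F) T := by
    rw [Finset.disjoint_left]
    intro c hc hc2
    rw [mem_nonsq] at hc
    rw [hmT] at hc2
    exact hc hc2.1
  have d2 : Disjoint (nonsq F ∪ T) {0} := by
    rw [Finset.disjoint_left]
    intro c hc hc2
    rw [Finset.mem_singleton] at hc2
    rw [Finset.mem_union, mem_nonsq, hmT] at hc
    rcases hc with h | h
    · apply h; rw [hc2]; exact ⟨0, by ring⟩
    · exact h.2 hc2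
  have e : nonsq F ∪ T ∪ {0} = (Finset.univ : Finset F) := by
    ext c
    simp only [Finset.mem_univ, Finset.mem_union, mem_nonsq, hmT, Finset.mem_singleton, iff_true]
    tauto
  have h2 : (nonsq F).card + T.card + 1 = Fintype.card F := by
    rw [← Finset.card_univ, ← e, Finset.card_union_of_disjoint d2, Finset.card_union_of_disjoint d1,
      Finset.card_singleton]
  omega

/-- The parameter of the nonsquare `c`. -/
noncomputable def par (c : F) : F := (1 + c) / (2 * (1 - c))

theorem par_spec (hq : Fintype.card F % 4 = 3) {c : F} (hc : ¬ IsSquare c) :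
    ¬ IsSquare (par c ^ 2 - 1 / 4) := by
  have h2 := two_ne hq
  have hc1 : 1 - c ≠ 0 := by
    intro h
    apply hc
    refine ⟨1, ?_⟩
    linear_combination -h
  have e : par c ^ 2 - 1 / 4 = c * (1 / (1 - c)) ^ 2 := by
    unfold par
    have h4 : (4 : F) = 2 * 2 := by norm_num
    rw [h4]
    field_simp
    ring
  rw [e]
  rintro ⟨a, ha⟩
  apply hc
  refine ⟨a * (1 - c), ?_⟩
  have h3 : c = (c * (1 / (1 - c)) ^ 2) * (1 - c) ^ 2 := by field_simp
  rw [ha] at h3
  linear_combination h3

theorem par_inj (hq : Fintype.card F % 4 = 3) {c d : F} (hc : ¬ IsSquare c) (hd : ¬ IsSquare d)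
    (h : par c = par d) : c = d := by
  have h2 := two_ne hq
  have hc1 : 1 - c ≠ 0 := by
    intro h
    apply hc
    refine ⟨1, ?_⟩
    linear_combination -h
  have hd1 : 1 - d ≠ 0 := by
    intro h
    apply hd
    refine ⟨1, ?_⟩
    linear_combination -h
  unfold par at h
  rw [div_eq_div_iff (mul_ne_zero h2 hc1) (mul_ne_zero h2 hd1)] at h
  have h3 : (2 * 2) * (c - d) = 0 := by linear_combination h
  have h4 : (2 : F) * 2 ≠ 0 := mul_ne_zero h2 h2
  exact sub_eq_zero.1 ((mul_eq_zero.1 h3).resolve_left h4)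

end abs

/-- For every field of order `q ≡ 3 (mod 4)` the bound is attained on an affine line. -/
theorem sharp {F : Type*} [Field F] [Fintype F] {r : ℕ} (hF : Fintype.card F = r)
    (hr : r % 4 = 3) (φ : Fin r ≃ F) :
    ∃ (A B : Fin r → Fin r → F) (S : Finset (Fin r → Fin r → Fin r)),
      (∀ f ∈ S, IsSLS f) ∧ (∀ f ∈ S, ∀ g ∈ S, f ≠ g → Orth f g) ∧
      (∀ f ∈ S, ∃ l : F, ∀ i j, φ (f i j) = A i j + l * B i j) ∧ 2 * S.card = r - 1 := by
  classical
  have hq : Fintype.card F % 4 = 3 := by rw [hF]; exact hr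
  set Q : F → (Fin r → Fin r → Fin r) := fun l i j => φ.symm (sq l (φ i) (φ j)) with hQ
  have hQinj : Function.Injective Q := by
    intro l m h
    have h1 := congrFun (congrFun h (φ.symm 1)) (φ.symm 0)
    rw [hQ] at h1
    simp only [Equiv.apply_symm_apply, EmbeddingLike.apply_eq_iff_eq] at h1
    unfold sq at h1
    rw [sub_zero, ab_one, mul_one, mul_one] at h1
    exact add_left_cancel h1
  refine ⟨fun i j => (φ i + φ j) / 2, fun i j => ab (φ i - φ j),
    ((nonsq F).image par).image Q, ?_, ?_, ?_, ?_⟩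
  · intro f hf
    obtain ⟨l, hl, rfl⟩ := Finset.mem_image.1 hf
    obtain ⟨c, hc, rfl⟩ := Finset.mem_image.1 hl
    have hrow : ∀ i, Function.Bijective (Q (par c) i) := by
      intro i
      rw [Fintype.bijective_iff_injective_and_card]
      refine ⟨?_, rfl⟩
      intro j k h
      rw [hQ] at h
      have h1 := φ.symm.injective h
      exact φ.injective (sq_inj hq (par_spec hq (mem_nonsq.1 hc)) _ h1)
    have hsymm : ∀ i j, Q (par c) i j = Q (par c) j i := by
      intro i j
      rw [hQ]
      simp only
      rw [sq_symm hq]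
    refine ⟨hrow, ?_, hsymm, ?_⟩
    · intro j
      have : (fun i => Q (par c) i j) = Q (par c) j := by
        funext i
        rw [hsymm]
      rw [this]
      exact hrow j
    · intro i
      rw [hQ]
      simp only
      rw [sq_diag hq, Equiv.symm_apply_apply]
  · intro f hf g hg hfg
    obtain ⟨l, hl, rfl⟩ := Finset.mem_image.1 hf
    obtain ⟨m, hm, rfl⟩ := Finset.mem_image.1 hg
    have hlm : l ≠ m := fun h => hfg (by rw [h])
    intro i j k n hij hkn h1 h2
    rw [hQ] at h1 h2
    have h3 := φ.symm.injective h1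
    have h4 := φ.symm.injective h2
    rcases sq_orth hq hlm h3 h4 with h | h
    · exact ⟨φ.injective h.1, φ.injective h.2⟩
    · have e1 := φ.injective h.1
      have e2 := φ.injective h.2
      subst e1 e2
      have := le_antisymm hij hkn
      exact ⟨this, this.symm⟩
  · intro f hf
    obtain ⟨l, hl, rfl⟩ := Finset.mem_image.1 hf
    refine ⟨l, fun i j => ?_⟩
    rw [hQ]
    simp only [Equiv.apply_symm_apply]
    rfl
  · rw [Finset.card_image_of_injective _ hQinj, Finset.card_image_of_injOn, card_nonsq hq, hF]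
    intro c hc d hd h
    exact par_inj hq (mem_nonsq.1 hc) (mem_nonsq.1 hd) h

end Pool.Agent.Lib.H97P
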