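import Pool.Agent.Lib.H97P.Redei

/-!
# H97P: definitions and the parity argument
-/

set_option autoImplicit false

namespace Pool.Agent.Lib.H97P

open Polynomial Finset

/-- `f` is a symmetric Latin square of side `r` with diagonal `(0, 1, …, r - 1)`. -/
structure IsSLS {r : ℕ} (f : Fin r → Fin r → Fin r) : Prop where
  row : ∀ i, Function.Bijective (f i)
  col : ∀ j, Function.Bijective (fun i => f i j)
  symm : ∀ i j, f i j = f j i
  diag : ∀ i, f i i = i

/-- Orthogonality of symmetric squares: the pairs `(f i j, g i j)`, `i ≤ j`, are distinct. -/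
def Orth {r : ℕ} (f g : Fin r → Fin r → Fin r) : Prop :=
  ∀ i j k l, i ≤ j → k ≤ l → f i j = f k l → g i j = g k l → i = k ∧ j = l

theorem orth_symm {r : ℕ} {f g : Fin r → Fin r → Fin r} (hf : IsSLS f) (hg : IsSLS g)
    (h : Orth f g) {i j c : Fin r} (h1 : f i j = f c c) (h2 : g i j = g c c) : i = j := by
  rcases le_total i j with hij | hij
  · obtain ⟨e1, e2⟩ := h i j c c hij le_rfl h1 h2
    rw [e1, e2]
  · rw [hf.symm] at h1
    rw [hg.symm] at h2
    obtain ⟨e1, e2⟩ := h j i c c hij le_rfl h1 h2
    rw [e1, e2]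

/-- A symmetric array of odd side with bijective rows has no constant diagonal. -/
theorem parity {F : Type*} [Nontrivial F] {r : ℕ} (hr : Odd r) (M : Fin r → Fin r → F)
    (hs : ∀ i j, M i j = M j i) (hb : ∀ i, Function.Bijective (M i)) (c : F)
    (hc : ∀ i, M i i = c) : False := by
  classical
  obtain ⟨v, hv⟩ := exists_ne c
  choose σ hσ using fun i => (hb i).2 v
  have h0 : ∑ _i : Fin r, (1 : ZMod 2) = 0 := by
    refine Finset.sum_involution (fun i _ => σ i) (fun i _ => ?_) (fun i _ _ => ?_)
      (fun i _ => Finset.mem_univ _) (fun i _ => ?_)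
    · decide
    · intro h
      have h1 := hσ i
      rw [h, hc] at h1
      exact hv h1.symm
    · apply (hb (σ i)).1
      rw [hσ, hs, hσ]
  rw [Finset.sum_const, Finset.card_univ, Fintype.card_fin, nsmul_eq_mul, mul_one] at h0
  rw [ZMod.natCast_eq_zero_iff] at h0
  obtain ⟨k, hk⟩ := hr
  omega

/-- Part 1: families on an affine line over `F_q`, the symbols identified with `F_q`. -/
theorem part1 {F : Type*} [Field F] [Fintype F] {r : ℕ} (hr : Odd r) (φ : Fin r ≃ F)
    (A B : Fin r → Fin r → F) (S : Finset (Fin r → Fin r → Fin r))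
    (hS : ∀ f ∈ S, IsSLS f) (ho : ∀ f ∈ S, ∀ g ∈ S, f ≠ g → Orth f g)
    (hl : ∀ f ∈ S, ∃ l : F, ∀ i j, φ (f i j) = A i j + l * B i j) : 2 * S.card ≤ r - 1 := by
  classical
  by_contra hcon
  have hq : Fintype.card F = r := by
    rw [← Fintype.card_congr φ, Fintype.card_fin]
  have hr1 : 1 < r := hq ▸ Fintype.one_lt_card
  have hr3 : 3 ≤ r := by
    obtain ⟨k, hk⟩ := hr
    omega
  have hcard : r + 1 ≤ 2 * S.card := by
    obtain ⟨k, hk⟩ := hr
    omega
  have h2 : 1 < S.card := by omega
  obtain ⟨f, hf, g, hg, hfg⟩ := Finset.one_lt_card.1 h2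
  choose! l hl using hl
  have hinj : ∀ f ∈ S, ∀ g ∈ S, l f = l g → f = g := by
    intro f hf g hg h
    funext i j
    apply φ.injective
    rw [hl f hf, hl g hg, h]
  have hlne : l f - l g ≠ 0 := sub_ne_zero.2 fun h => hfg (hinj f hf g hg h)
  have hB0 : ∀ i, B i i = 0 := by
    intro i
    have h1 := hl f hf i i
    have h2 := hl g hg i i
    rw [(hS f hf).diag] at h1
    rw [(hS g hg).diag] at h2
    have : (l f - l g) * B i i = 0 := by linear_combination h2 - h1
    exact (mul_eq_zero.1 this).resolve_left hlne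
  have hBs : ∀ i j, B i j = B j i := by
    intro i j
    have h1 := hl f hf i j
    have h2 := hl g hg i j
    have h3 := hl f hf j i
    have h4 := hl g hg j i
    rw [(hS f hf).symm] at h1
    rw [(hS g hg).symm] at h2
    have : (l f - l g) * (B i j - B j i) = 0 := by linear_combination h3 - h1 + h2 - h4
    exact sub_eq_zero.1 ((mul_eq_zero.1 this).resolve_left hlne)
  have hBne : ∀ i j, j ≠ i → B i j ≠ B i i := by
    intro i j hij h
    rw [hB0] at h
    have h1 := hl f hf i j
    have h2 := hl g hg i j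
    have h3 : f i j = g i j := by
      apply φ.injective
      rw [h1, h2, h, mul_zero, mul_zero]
    exact hij (orth_symm (hS f hf) (hS g hg) (ho f hf g hg hfg) (c := f i j)
      ((hS f hf).diag _).symm (by rw [(hS g hg).diag, h3])).symm
  have hrow : ∀ i, Function.Bijective (B i) := by
    intro i
    refine key' (A i) (B i) (hq ▸ hr) (S.image l) ?_ ?_ i (hBne i)
    · rw [Finset.card_image_of_injOn (fun f hf g hg h => hinj f hf g hg h), hq]
      exact hcard
    · intro m hm
      obtain ⟨e, he, rfl⟩ := Finset.mem_image.1 hm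
      have : (fun t => A i t + l e * B i t) = φ ∘ (e i) := by
        funext t
        rw [Function.comp_apply, hl e he]
      rw [this]
      exact φ.bijective.comp ((hS e he).row i)
  exact parity hr B hBs hrow 0 hB0

end Pool.Agent.Lib.H97P
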