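import Pool.Agent.Lib.H97P.Parity

/-!
# H97P: families of squares embedded in the affine plane `AG(2, q)`
-/

set_option autoImplicit false

namespace Pool.Agent.Lib.H97P

open Polynomial Finset

theorem const_of_derivative {F : Type*} [Field F] [Fintype F] {r : ℕ} (hF : Fintype.card F = r)
    (hr : r.Prime) {ι : Type*} [Fintype ι]
    (hι : Fintype.card ι = r) (b : ι → F) (h : derivative (rp b) = 0) :
    ∀ t, b t = (rp b).coeff 0 := by
  have hdeg : (rp b).natDegree = r := by rw [rp_natDegree, hι]
  have hp0 : r ≠ 0 := hr.ne_zero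
  obtain ⟨n, hn1, hn2⟩ := FiniteField.card F (ringChar F)
  have hchar : ringChar F = r := by
    rw [hF] at hn2
    have hd : ringChar F ∣ r := by
      rw [hn2]
      exact dvd_pow_self _ n.pos.ne'
    rcases (Nat.dvd_prime hr).1 hd with h1 | h1
    · exact absurd h1 hn1.one_lt.ne'
    · exact h1
  have hCP : CharP F r := hchar ▸ ringChar.charP F
  have hpol : rp b = X ^ r + C ((rp b).coeff 0) := by
    ext n
    rw [coeff_add, coeff_X_pow, coeff_C]
    rcases Nat.eq_zero_or_pos n with h0 | h0
    · subst h0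
      rw [if_neg (Ne.symm hp0), if_pos rfl, zero_add]
    · rw [if_neg (by omega : ¬ n = 0), add_zero]
      rcases lt_trichotomy n r with hlt | heq | hgt
      · rw [if_neg (by omega)]
        have h1 := congrArg (fun q => coeff q (n - 1)) h
        simp only [coeff_derivative, coeff_zero] at h1
        have e : n - 1 + 1 = n := by omega
        rw [e] at h1
        have h2 : ((n - 1 : ℕ) : F) + 1 = (n : F) := by
          have : ((n - 1 : ℕ) : F) + 1 = ((n - 1 + 1 : ℕ) : F) := by push_cast; ring
          rw [this, e]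
        rw [h2] at h1
        rcases mul_eq_zero.1 h1 with h3 | h3
        · exact h3
        · exfalso
          rw [CharP.cast_eq_zero_iff F r] at h3
          exact absurd (Nat.le_of_dvd h0 h3) (by omega)
      · rw [if_pos heq, heq]
        have := (rp_monic b).coeff_natDegree
        rw [hdeg] at this
        exact this
      · rw [if_neg (by omega)]
        exact coeff_eq_zero_of_natDegree_lt (by omega)
  intro t
  have h1 : (rp b).eval (- b t) = 0 := by
    unfold rp
    rw [eval_prod]
    refine Finset.prod_eq_zero (Finset.mem_univ t) ?_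
    simp
  rw [hpol] at h1
  simp only [eval_add, eval_pow, eval_X, eval_C] at h1
  have h2 : (- b t) ^ r = - b t := by rw [← hF]; exact FiniteField.pow_card _
  rw [h2] at h1
  linear_combination -h1

/-- The diagonal points `(A i i, B i i)` are collinear. -/
def DiagCollinear {F : Type*} [Field F] {r : ℕ} (A B : Fin r → Fin r → F) : Prop :=
  ∃ u v : F, (u ≠ 0 ∨ v ≠ 0) ∧ ∀ i j, u * A i i + v * B i i = u * A j j + v * B j j

/-- Families of squares that are relabelled linear combinations of two arrays `A`, `B`. -/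
theorem embedded {F : Type*} [Field F] [Fintype F] {r : ℕ} (hF : Fintype.card F = r)
    (hr : Odd r) (A B : Fin r → Fin r → F)
    (hcase : r.Prime ∨ DiagCollinear A B)
    (S : Finset (Fin r → Fin r → Fin r))
    (hS : ∀ f ∈ S, IsSLS f) (ho : ∀ f ∈ S, ∀ g ∈ S, f ≠ g → Orth f g)
    (hl : ∀ f ∈ S, ∃ (α β : F) (ψ : F → Fin r),
      ∀ i j, f i j = ψ (α * A i j + β * B i j)) : 2 * S.card ≤ r - 1 := by
  classical
  by_contra hcon
  have hp1 : 1 < r := hF ▸ Fintype.one_lt_card
  have hp3 : 3 ≤ r := by
    obtain ⟨k, hk⟩ := hr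
    omega
  have hcard : r + 1 ≤ 2 * S.card := by
    obtain ⟨k, hk⟩ := hr
    omega
  have h2 : 1 < S.card := by omega
  obtain ⟨f₀, hf₀, g₀, hg₀, hfg⟩ := Finset.one_lt_card.1 h2
  have hne0 : Nonempty (Fin r) := ⟨⟨0, by omega⟩⟩
  choose! α β ψ hl using hl
  -- the relabellings are injective
  have hψ : ∀ f ∈ S, Function.Injective (ψ f) := by
    intro f hf
    have hsurj : Function.Surjective (ψ f) := by
      intro t
      exact ⟨_, by rw [← hl f hf t t, (hS f hf).diag]⟩
    have hb : Function.Bijective (ψ f) := by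
      rw [Fintype.bijective_iff_surjective_and_card]
      exact ⟨hsurj, by rw [hF, Fintype.card_fin]⟩
    exact hb.1
  set i0 : Fin r := ⟨0, by omega⟩ with hi0
  set i1 : Fin r := ⟨1, by omega⟩ with hi1
  have h01 : i0 ≠ i1 := by
    rw [hi0, hi1]
    intro h
    rw [Fin.mk.injEq] at h
    omega
  have hfd : ∀ f ∈ S, α f * (A i1 i1 - A i0 i0) + β f * (B i1 i1 - B i0 i0) ≠ 0 := by
    intro f hf h
    apply h01
    have h1 : f i0 i0 = f i1 i1 := by
      rw [hl f hf, hl f hf]
      congr 1
      linear_combination -h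
    rw [(hS f hf).diag, (hS f hf).diag] at h1
    exact h1
  obtain ⟨u, v, huv, huv0, hcase'⟩ : ∃ u v : F, (u ≠ 0 ∨ v ≠ 0) ∧
      u * (A i1 i1 - A i0 i0) + v * (B i1 i1 - B i0 i0) = 0 ∧
      (r.Prime ∨ ∀ i j, u * A i i + v * B i i = u * A j j + v * B j j) := by
    rcases hcase with h | ⟨u, v, h1, h2⟩
    · refine ⟨B i1 i1 - B i0 i0, -(A i1 i1 - A i0 i0), ?_, by ring, Or.inl h⟩
      by_contra hc
      push Not at hc
      apply hfd f₀ hf₀
      rw [hc.1, neg_eq_zero.1 hc.2]
      ring
    · exact ⟨u, v, h1, by linear_combination h2 i1 i0, Or.inr h2⟩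
  -- the determinants
  set D : (Fin r → Fin r → Fin r) → F := fun f => α f * v - β f * u with hD
  have hDne : ∀ f ∈ S, D f ≠ 0 := by
    intro f hf h
    rw [hD] at h
    simp only at h
    have hne := hfd f hf
    rcases huv with hu | hv
    · apply hne
      have : u * (α f * (A i1 i1 - A i0 i0) + β f * (B i1 i1 - B i0 i0)) = 0 := by
        linear_combination (α f) * huv0 - (B i1 i1 - B i0 i0) * h
      exact (mul_eq_zero.1 this).resolve_left hu
    · apply hne
      have : v * (α f * (A i1 i1 - A i0 i0) + β f * (B i1 i1 - B i0 i0)) = 0 := by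
        linear_combination (β f) * huv0 + (A i1 i1 - A i0 i0) * h
      exact (mul_eq_zero.1 this).resolve_left hv
  obtain ⟨a, b, hab⟩ : ∃ a b : F, a * v - b * u = 1 := by
    rcases huv with h | h
    · exact ⟨0, -u⁻¹, by rw [zero_mul, neg_mul, inv_mul_cancel₀ h]; ring⟩
    · exact ⟨v⁻¹, 0, by rw [zero_mul, inv_mul_cancel₀ h]; ring⟩
  set A' : Fin r → Fin r → F := fun i j => a * A i j + b * B i j with hA'
  set B' : Fin r → Fin r → F := fun i j => u * A i j + v * B i j with hB'
  set l : (Fin r → Fin r → Fin r) → F := fun f => (β f * a - α f * b) / D f with hll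
  have hx : ∀ f ∈ S, ∀ i j, α f * A i j + β f * B i j = D f * (A' i j + l f * B' i j) := by
    intro f hf i j
    have h1 : D f * l f = β f * a - α f * b := by
      rw [hll]
      exact mul_div_cancel₀ _ (hDne f hf)
    calc α f * A i j + β f * B i j
        = (α f * A i j + β f * B i j) * (a * v - b * u) := by rw [hab, mul_one]
      _ = D f * A' i j + (β f * a - α f * b) * B' i j := by rw [hD, hA', hB']; ring
      _ = D f * A' i j + (D f * l f) * B' i j := by rw [h1]
      _ = _ := by ring
  -- equality of `A' + l B'` is equality of entries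
  have heq : ∀ f ∈ S, ∀ i j k m, A' i j + l f * B' i j = A' k m + l f * B' k m ↔
      f i j = f k m := by
    intro f hf i j k m
    constructor
    · intro h
      rw [hl f hf, hl f hf, hx f hf, hx f hf, h]
    · intro h
      rw [hl f hf, hl f hf] at h
      have h1 := hψ f hf h
      rw [hx f hf, hx f hf] at h1
      exact mul_left_cancel₀ (hDne f hf) h1
  have hinj : ∀ f ∈ S, ∀ g ∈ S, l f = l g → f = g := by
    intro f hf g hg h
    funext i j
    have h1 : f i j = f (f i j) (f i j) := ((hS f hf).diag _).symm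
    have h2 := (heq f hf _ _ _ _).2 h1
    rw [h] at h2
    have h3 := (heq g hg _ _ _ _).1 h2
    rw [(hS g hg).diag] at h3
    exact h3.symm
  have hlne : l f₀ - l g₀ ≠ 0 := sub_ne_zero.2 fun h => hfg (hinj f₀ hf₀ g₀ hg₀ h)
  have hBs : ∀ i j, B' i j = B' j i := by
    intro i j
    have h1 := (heq f₀ hf₀ i j j i).2 ((hS f₀ hf₀).symm i j)
    have h2 := (heq g₀ hg₀ i j j i).2 ((hS g₀ hg₀).symm i j)
    have : (l f₀ - l g₀) * (B' i j - B' j i) = 0 := by linear_combination h1 - h2
    exact sub_eq_zero.1 ((mul_eq_zero.1 this).resolve_left hlne)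
  -- the diagonal
  have hdiagbij : ∀ f ∈ S, Function.Bijective (fun t => A' t t + l f * B' t t) := by
    intro f hf
    rw [Fintype.bijective_iff_injective_and_card]
    refine ⟨fun s t h => ?_, by rw [hF, Fintype.card_fin]⟩
    have h1 := (heq f hf s s t t).1 h
    rwa [(hS f hf).diag, (hS f hf).diag] at h1
  have himg : Fintype.card F + 1 ≤ 2 * (S.image l).card := by
    rw [Finset.card_image_of_injOn (fun f hf g hg h => hinj f hf g hg h), hF]
    exact hcard
  obtain ⟨c, hc⟩ : ∃ c, ∀ t, B' t t = c := by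
    rcases hcase' with hprime | hcol
    · rcases key (fun t => A' t t) (fun t => B' t t) (by rw [hF]; exact hr) (S.image l) himg (by
        intro m hm
        obtain ⟨e, he, rfl⟩ := Finset.mem_image.1 hm
        exact hdiagbij e he) with h | h
      · exfalso
        apply h01
        apply h.1
        show B' i0 i0 = B' i1 i1
        rw [hB']
        linear_combination -huv0
      · exact ⟨_, const_of_derivative hF hprime (Fintype.card_fin r) (fun t => B' t t) h⟩
    · exact ⟨B' i0 i0, fun t => hcol t i0⟩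
  have hne : ∀ i t, t ≠ i → B' i t ≠ B' i i := by
    intro i t hti h
    rw [hc i] at h
    obtain ⟨s, hs⟩ := (hdiagbij f₀ hf₀).2 (A' i t + l f₀ * c)
    simp only [hc s] at hs
    have hAs : A' s s = A' i t := by linear_combination hs
    have h1 : f₀ i t = f₀ s s := by
      rw [← heq f₀ hf₀, hAs, h, hc s]
    have h2 : g₀ i t = g₀ s s := by
      rw [← heq g₀ hg₀, hAs, h, hc s]
    exact hti (orth_symm (hS f₀ hf₀) (hS g₀ hg₀) (ho f₀ hf₀ g₀ hg₀ hfg) h1 h2).symm
  have hrow : ∀ i, Function.Bijective (B' i) := by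
    intro i
    refine key' (A' i) (B' i) (by rw [hF]; exact hr) (S.image l) himg ?_ i (hne i)
    intro m hm
    obtain ⟨e, he, rfl⟩ := Finset.mem_image.1 hm
    rw [Fintype.bijective_iff_injective_and_card]
    refine ⟨fun s t h => ?_, by rw [hF, Fintype.card_fin]⟩
    exact ((hS e he).row i).1 ((heq e he i s i t).1 h)
  exact parity hr B' hBs hrow c hc

end Pool.Agent.Lib.H97P
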