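import Mathlib

/-!
# H97P: the lacunary polynomial lemma (Redei, Szonyi) in the form needed for MP_218f97_co
-/

set_option autoImplicit false

namespace Pool.Agent.Lib.H97P

open Polynomial Finset

section basics

variable {F : Type*} [Field F] {ι : Type*} [Fintype ι]

/-- `∏ t, (X + C (b t))`. -/
noncomputable def rp (b : ι → F) : F[X] := ∏ t, (X + C (b t))

theorem rp_monic (b : ι → F) : (rp b).Monic :=
  monic_prod_of_monic _ _ fun _ _ => monic_X_add_C _

theorem rp_natDegree (b : ι → F) : (rp b).natDegree = Fintype.card ι := by
  classical
  unfold rp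
  rw [natDegree_prod_of_monic _ _ fun _ _ => monic_X_add_C _]
  simp

/-- The elementary symmetric function of the values. -/
noncomputable def es (j : ℕ) (b : ι → F) : F := ∑ s ∈ powersetCard j (univ : Finset ι), ∏ t ∈ s, b t

theorem rp_coeff (b : ι → F) {j : ℕ} (hj : j ≤ Fintype.card ι) :
    (rp b).coeff (Fintype.card ι - j) = es j b := by
  classical
  unfold rp es
  have h := Finset.prod_X_add_C_coeff (univ : Finset ι) b (k := Fintype.card ι - j)
    (by rw [Finset.card_univ]; omega)
  rw [h, Finset.card_univ]
  have : Fintype.card ι - (Fintype.card ι - j) = j := by omega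
  rw [this]

/-- `e_j (a + Y b)` as a polynomial in `Y`. -/
noncomputable def ep (j : ℕ) (a b : ι → F) : F[X] :=
  ∑ s ∈ powersetCard j (univ : Finset ι), ∏ t ∈ s, (C (b t) * X + C (a t))

theorem ep_eval (j : ℕ) (a b : ι → F) (l : F) :
    (ep j a b).eval l = es j (fun t => a t + l * b t) := by
  unfold ep es
  rw [eval_finsetSum]
  refine Finset.sum_congr rfl fun s _ => ?_
  rw [eval_prod]
  refine Finset.prod_congr rfl fun t _ => ?_
  simp
  ring

theorem ep_natDegree (j : ℕ) (a b : ι → F) : (ep j a b).natDegree ≤ j := by
  unfold ep
  refine natDegree_sum_le_of_forall_le _ _ fun s hs => ?_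
  rw [mem_powersetCard] at hs
  refine (natDegree_prod_le _ _).trans ?_
  have h1 : ∀ t ∈ s, (C (b t) * X + C (a t)).natDegree ≤ 1 := fun t _ => natDegree_linear_le
  refine (Finset.sum_le_card_nsmul s _ 1 h1).trans ?_
  rw [hs.2]
  simp

theorem ep_coeff (j : ℕ) (a b : ι → F) : (ep j a b).coeff j = es j b := by
  unfold ep es
  rw [finsetSum_coeff]
  refine Finset.sum_congr rfl fun s hs => ?_
  rw [mem_powersetCard] at hs
  have h := coeff_prod_of_natDegree_le s (fun t => C (b t) * X + C (a t)) 1
    (fun t _ => natDegree_linear_le)
  rw [hs.2, mul_one] at h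
  rw [h]
  refine Finset.prod_congr rfl fun t _ => ?_
  simp

end basics

variable {F : Type*} [Field F] [Fintype F] {ι : Type*} [Fintype ι]

theorem roots_rp (b : ι → F) : (rp b).roots = (univ : Finset ι).val.map (fun t => - b t) := by
  classical
  have h : rp b = ((univ : Finset ι).val.map (fun t => X - C (- b t))).prod := by
    unfold rp
    rw [Finset.prod]
    congr 1
    refine Multiset.map_congr rfl fun t _ => ?_
    rw [C_neg, sub_neg_eq_add]
  rw [h]
  have := roots_multiset_prod_X_sub_C ((univ : Finset ι).val.map (fun t => - b t))
  rw [Multiset.map_map] at this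
  exact this

/-- The values of a bijection onto `F`: the polynomial is `X ^ q - X`. -/
theorem rp_of_bijective (b : ι → F) (hb : Function.Bijective b) :
    rp b = X ^ Fintype.card F - X := by
  classical
  have hm : (X ^ Fintype.card F - X : F[X]).Monic := by
    rw [sub_eq_add_neg]
    refine monic_X_pow_add ?_
    rw [degree_neg, degree_X]
    exact_mod_cast Fintype.one_lt_card
  have hs : (X ^ Fintype.card F - X : F[X]).Splits := by
    rw [splits_iff_card_roots, FiniteField.roots_X_pow_card_sub_X, ← Finset.card_def,
      Finset.card_univ, FiniteField.X_pow_card_sub_X_natDegree_eq _ Fintype.one_lt_card]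
  have hs2 : (rp b).Splits := by
    rw [splits_iff_card_roots, roots_rp, rp_natDegree]
    simp [Finset.card_univ]
  have hr : (rp b).roots = (X ^ Fintype.card F - X : F[X]).roots := by
    rw [roots_rp, FiniteField.roots_X_pow_card_sub_X]
    have hb2 : Function.Bijective (fun t => - b t) := neg_involutive.bijective.comp hb
    have h1 : (univ : Finset F) = (univ : Finset ι).map (Equiv.ofBijective _ hb2).toEmbedding := by
      rw [Finset.map_univ_equiv]
    rw [h1, Finset.map_val]
    rfl
  rw [hs2.eq_prod_roots_of_monic (rp_monic b), hs.eq_prod_roots_of_monic hm, hr]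

/-- **Key lemma.** If `a + l b` is a bijection onto `F` (odd order `q`) for at least
`(q + 1) / 2` values `l`, then `b` is a bijection or the derivative of `∏ (X + b t)` is zero. -/
theorem key (a b : ι → F) (hq : Odd (Fintype.card F))
    (L : Finset F) (hL : Fintype.card F + 1 ≤ 2 * L.card)
    (hb : ∀ l ∈ L, Function.Bijective (fun t => a t + l * b t)) :
    Function.Bijective b ∨ derivative (rp b) = 0 := by
  classical
  set q := Fintype.card F with hqdef
  have hq2 : 1 < q := Fintype.one_lt_card
  have hq3 : 3 ≤ q := by
    obtain ⟨k, hk⟩ := hq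
    omega
  have hLne : L.Nonempty := by
    rw [← Finset.card_pos]
    omega
  obtain ⟨l₀, hl₀⟩ := hLne
  have hι : Fintype.card ι = q := Fintype.card_of_bijective (hb l₀ hl₀)
  -- the elementary symmetric functions of `b` vanish
  have hes : ∀ j, 1 ≤ j → 2 * j + 1 ≤ q → es j b = 0 := by
    intro j hj1 hj2
    have hz : ep j a b = 0 := by
      refine eq_zero_of_natDegree_lt_card_of_eval_eq_zero' (ep j a b) L ?_ ?_
      · intro l hl
        rw [ep_eval, ← rp_coeff _ (by omega), rp_of_bijective _ (hb l hl), hι, ← hqdef]
        rw [coeff_sub, coeff_X_pow, coeff_X, if_neg (by omega), if_neg (by omega), sub_zero]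
      · have := ep_natDegree j a b
        omega
    rw [← ep_coeff j a b, hz, coeff_zero]
  set f := rp b with hf
  have hfdeg : f.natDegree = q := by rw [hf, rp_natDegree, hι]
  have hfm : f.Monic := rp_monic b
  set h : F[X] := f - X ^ q with hh
  have hfh : f = X ^ q + h := by rw [hh]; ring
  -- degree of `h`
  have hhdeg : ∀ m, q ≤ 2 * m → h.coeff m = 0 := by
    intro m hm
    rw [hh, coeff_sub, coeff_X_pow]
    rcases lt_trichotomy m q with hlt | heq | hgt
    · rw [if_neg (by omega), sub_zero]
      have e : m = Fintype.card ι - (q - m) := by omega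
      rw [e, hf, rp_coeff _ (by omega)]
      exact hes _ (by omega) (by obtain ⟨k, hk⟩ := hq; omega)
    · rw [if_pos heq, heq]
      have := hfm.coeff_natDegree
      rw [hfdeg] at this
      rw [this, sub_self]
    · rw [if_neg (by omega), sub_zero]
      exact coeff_eq_zero_of_natDegree_lt (by omega)
  have hhd : h.natDegree ≤ (q - 1) / 2 := by
    rw [natDegree_le_iff_coeff_eq_zero]
    intro N hN
    exact hhdeg N (by obtain ⟨k, hk⟩ := hq; omega)
  have hqF : (q : F[X]) = 0 := by
    have : (q : F) = 0 := FiniteField.cast_card_eq_zero F
    rw [← C_eq_natCast, this, C_0]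
  have hder : derivative f = derivative h := by
    rw [hfh, derivative_add, derivative_X_pow]
    have : (C (q : F)) = (0 : F[X]) := by
      rw [FiniteField.cast_card_eq_zero F, C_0]
    rw [this]
    ring
  by_cases hprod : (h + X) * derivative h = 0
  · rcases mul_eq_zero.1 hprod with h1 | h1
    · left
      have hfx : f = X ^ q - X := by
        have : h = -X := by
          linear_combination h1
        rw [hfh, this]; ring
      have hr : (rp b).roots = (X ^ Fintype.card F - X : F[X]).roots := by
        rw [← hf, hfx]
      rw [roots_rp, FiniteField.roots_X_pow_card_sub_X] at hr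
      have hinj : Function.Injective (fun t => - b t) := by
        intro s t hst
        have hnd : ((univ : Finset ι).val.map (fun t => - b t)).Nodup := by
          rw [hr]; exact Finset.nodup _
        exact Multiset.inj_on_of_nodup_map hnd s (Finset.mem_univ_val _) t
          (Finset.mem_univ_val _) hst
      have hinj2 : Function.Injective b := by
        intro s t hst
        exact hinj (by simp only [hst])
      rw [Fintype.bijective_iff_injective_and_card]
      exact ⟨hinj2, by rw [hι]⟩
    · right
      rw [hder, h1]
  · exfalso
    have hle : f.roots ≤ ((h + X) * derivative h).roots := by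
      rw [Multiset.le_iff_count]
      intro ρ
      rw [count_roots, count_roots]
      by_cases hρ : f.rootMultiplicity ρ = 0
      · rw [hρ]; exact Nat.zero_le _
      · have hf0 : f ≠ 0 := hfm.ne_zero
        have hroot : f.eval ρ = 0 := by
          have := (rootMultiplicity_pos hf0).1 (Nat.pos_of_ne_zero hρ)
          exact this
        rw [rootMultiplicity_mul hprod]
        have h1 : 1 ≤ (h + X).rootMultiplicity ρ := by
          have hne : h + X ≠ 0 := left_ne_zero_of_mul hprod
          rw [Nat.one_le_iff_ne_zero, ← Nat.pos_iff_ne_zero, rootMultiplicity_pos hne]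
          have : ρ ^ q = ρ := FiniteField.pow_card ρ
          rw [hfh] at hroot
          simp only [eval_add, eval_pow, eval_X] at hroot
          rw [this] at hroot
          rw [IsRoot, eval_add, eval_X]
          linear_combination hroot
        have h2 : f.rootMultiplicity ρ - 1 ≤ (derivative h).rootMultiplicity ρ := by
          rw [← hder]
          refine rootMultiplicity_sub_one_le_derivative_rootMultiplicity_of_ne_zero f ρ ?_
          rw [hder]
          exact right_ne_zero_of_mul hprod
        omega
    have hc := Multiset.card_le_card hle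
    have hcf : Multiset.card f.roots = q := by
      rw [hf, roots_rp]
      simp [hι]
    have hc2 : Multiset.card ((h + X) * derivative h).roots ≤ ((h + X) * derivative h).natDegree :=
      card_roots' _
    have hd1 : ((h + X) * derivative h).natDegree ≤ (h + X).natDegree + (derivative h).natDegree :=
      natDegree_mul_le
    have hd2 : (h + X).natDegree ≤ (q - 1) / 2 := by
      refine (natDegree_add_le _ _).trans ?_
      rw [natDegree_X]
      refine max_le hhd ?_
      omega
    have hd3 : (derivative h).natDegree ≤ (q - 1) / 2 - 1 :=
      (natDegree_derivative_le h).trans (Nat.sub_le_sub_right hhd 1)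
    omega

/-- In the situation of `key`, if some value of `b` is taken exactly once, `b` is bijective. -/
theorem key' [DecidableEq ι] (a b : ι → F) (hq : Odd (Fintype.card F))
    (L : Finset F) (hL : Fintype.card F + 1 ≤ 2 * L.card)
    (hb : ∀ l ∈ L, Function.Bijective (fun t => a t + l * b t))
    (s : ι) (hs : ∀ t, t ≠ s → b t ≠ b s) : Function.Bijective b := by
  rcases key a b hq L hL hb with h | h
  · exact h
  · exfalso
    have h1 : rp b = (X + C (b s)) * ∏ t ∈ univ.erase s, (X + C (b t)) := by
      unfold rp
      exact (Finset.mul_prod_erase univ (fun t => X + C (b t)) (Finset.mem_univ s)).symm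
    have h2 := congrArg (eval (- b s)) h
    rw [h1, derivative_mul, eval_add, eval_mul, eval_mul] at h2
    simp only [derivative_add, derivative_X, derivative_C, add_zero, eval_one, one_mul, eval_add,
      eval_X, eval_C, neg_add_cancel, zero_mul, eval_zero, eval_prod] at h2
    rw [Finset.prod_eq_zero_iff] at h2
    obtain ⟨t, ht, ht2⟩ := h2
    rw [Finset.mem_erase] at ht
    exact hs t ht.1 (by linear_combination ht2)

end Pool.Agent.Lib.H97P
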